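import Mathlib
import Pool.Agent.Helper486.TP.PDefs
import Pool.Agent.Helper486.TP.Final

/-!
# The Riesz measure of the lower envelope of δ-subharmonic functions

For every domain `Ω ⊆ ℝⁿ`, every `m ≥ 2` and all δ-subharmonic `w₁, …, w_m` in `Ω` one has
`μ[⋀ w_j] ≥ ⋀_{j<k} μ[w_j ∧ w_k]`.
-/

set_option autoImplicit false

open MeasureTheory Set

namespace Pool.Agent.Results.MP_730047_an.LowerEnvelope

open Pool.Agent.Helper486.TP

/-- Let `n ≥ 1` (in particular `n ≥ 3`), let `Ω ⊆ ℝⁿ` be a domain, `m ≥ 2`, let `w 0, …, w (m-1)` be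
δ-subharmonic in `Ω` and let `c > 0` be the normalising constant of Riesz measures. Then the lower
envelope of all the `w j` and the pairwise minima have Riesz measures, the Riesz measures of the
pairwise minima have a greatest lower bound `I` in the order of signed Radon measures, and `I ≤ μ`,
where `μ` is the Riesz measure of the lower envelope. -/
theorem result (n : ℕ) (hn : 0 < n) (Ω : Set (E n)) (hΩ : IsOpen Ω) (hΩc : IsConnected Ω) (m : ℕ)
    (hm : 2 ≤ m) (w : Fin m → E n → EReal) (hw : ∀ j, DeltaSubharmonic Ω (w j)) (c : ℝ)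
    (hc : 0 < c) :
    (∃ μ, IsRiesz c Ω (fun x => ⨅ j, w j x) μ) ∧
    (∀ j k, ∃ ρ, IsRiesz c Ω (fun x => min (w j x) (w k x)) ρ) ∧
    ∀ (μ : SignedRadon Ω) (ρ : Fin m → Fin m → SignedRadon Ω),
      IsRiesz c Ω (fun x => ⨅ j, w j x) μ →
      (∀ j k, j < k → IsRiesz c Ω (fun x => min (w j x) (w k x)) (ρ j k)) →
      (∃ I, IsGLB {κ | ∃ j k, j < k ∧ κ = ρ j k} I) ∧
      ∀ I, IsGLB {κ | ∃ j k, j < k ∧ κ = ρ j k} I → I ≤ μ :=
  riesz_envelope hn hΩ hΩc.isPreconnected hm w hw hc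

end Pool.Agent.Results.MP_730047_an.LowerEnvelope
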